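import Mathlib
import Pool.Agent.W732.Ud.Stm

/-! Project UD: a real quadratic form is a Hermitian part plus the real part of a complex
quadratic form. -/

set_option autoImplicit false

open Complex
open Pool.Agent.W732.Cor (V)
open Pool.Agent.W732.Ud

namespace Pool.Agent.W591.Ud

variable {m : ℕ}

lemma sm (c : ℂ) (x : V m) : c • x = (c.re : ℝ) • x + (c.im : ℝ) • (I • x) := by
  ext i
  simp only [PiLp.smul_apply, PiLp.add_apply, smul_eq_mul, Complex.real_smul]
  conv_lhs => rw [← Complex.re_add_im c]
  ring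

lemma II (x : V m) : I • (I • x) = - x := by
  rw [smul_smul, I_mul_I, neg_one_smul]

section
variable (b : V m →L[ℝ] V m →L[ℝ] ℝ)

lemma b_left (c : ℂ) (x y : V m) : b (c • x) y = c.re * b x y + c.im * b (I • x) y := by
  rw [sm c x, map_add, map_smul, map_smul]
  simp

lemma b_right (c : ℂ) (x y : V m) : b x (c • y) = c.re * b x y + c.im * b x (I • y) := by
  rw [sm c y, map_add, map_smul, map_smul]
  simp

lemma b_leftI (c : ℂ) (x y : V m) :
    b (I • (c • x)) y = c.re * b (I • x) y - c.im * b x y := by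
  rw [smul_comm, b_left, II, map_neg]
  simp
  ring

lemma b_rightI (c : ℂ) (x y : V m) :
    b x (I • (c • y)) = c.re * b x (I • y) - c.im * b x y := by
  rw [smul_comm, b_right, II, map_neg]
  simp
  ring

/-- Hermitian part -/
noncomputable def Hf (x y : V m) : ℂ :=
  (((b x y + b (I • x) (I • y)) / 2 : ℝ) : ℂ) - I * (((b x (I • y) - b (I • x) y) / 2 : ℝ) : ℂ)

lemma Hf_add_right (x y z : V m) : Hf b x (y + z) = Hf b x y + Hf b x z := by
  simp only [Hf, smul_add, map_add]
  push_cast
  ring

lemma Hf_add_left (x y z : V m) : Hf b (x + y) z = Hf b x z + Hf b y z := by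
  simp only [Hf, smul_add, map_add, add_apply]
  push_cast
  ring

lemma Hf_smul_right (c : ℂ) (x y : V m) : Hf b x (c • y) = c * Hf b x y := by
  simp only [Hf]
  rw [b_right b c x y, b_rightI b c (I • x) y, b_rightI b c x y, b_right b c (I • x) y]
  conv_rhs => rw [← Complex.re_add_im c]
  push_cast
  ring_nf
  simp only [I_sq]
  ring

lemma Hf_smul_left (c : ℂ) (x y : V m) :
    Hf b (c • x) y = (starRingEnd ℂ) c * Hf b x y := by
  simp only [Hf]
  rw [b_left b c x y, b_leftI b c x (I • y), b_left b c x (I • y), b_leftI b c x y]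
  have : (starRingEnd ℂ) c = (c.re : ℂ) - c.im * I := by
    apply Complex.ext <;> simp
  rw [this]
  push_cast
  ring_nf
  simp only [I_sq]
  ring

lemma Hf_symm (hb : ∀ x y, b x y = b y x) (x y : V m) :
    (starRingEnd ℂ) (Hf b x y) = Hf b y x := by
  simp only [Hf, map_sub, map_mul, conj_ofReal, conj_I]
  rw [hb x y, hb x (I • y), hb (I • x) y, hb (I • x) (I • y)]
  push_cast
  ring

/-- as a functional -/
noncomputable def HL (x : V m) : V m →L[ℂ] ℂ :=
  LinearMap.toContinuousLinearMap
    { toFun := Hf b x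
      map_add' := Hf_add_right b x
      map_smul' := fun c y => Hf_smul_right b c x y }

lemma HL_apply (x y : V m) : HL b x y = Hf b x y := rfl

/-- the operator of the Hermitian part -/
noncomputable def T0 : V m →L[ℂ] V m :=
  LinearMap.toContinuousLinearMap
    { toFun := fun x => (InnerProductSpace.toDual ℂ (V m)).symm (HL b x)
      map_add' := by
        intro x y
        apply ext_inner_right ℂ
        intro z
        rw [InnerProductSpace.toDual_symm_apply, inner_add_left,
          InnerProductSpace.toDual_symm_apply, InnerProductSpace.toDual_symm_apply]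
        exact Hf_add_left b x y z
      map_smul' := by
        intro c x
        apply ext_inner_right ℂ
        intro z
        rw [InnerProductSpace.toDual_symm_apply, RingHom.id_apply, inner_smul_left,
          InnerProductSpace.toDual_symm_apply]
        exact Hf_smul_left b c x z }

lemma T0_inner (x y : V m) : (inner ℂ (T0 b x) y : ℂ) = Hf b x y := by
  change (inner ℂ ((InnerProductSpace.toDual ℂ (V m)).symm (HL b x)) y : ℂ) = _
  rw [InnerProductSpace.toDual_symm_apply]
  rfl

/-- complex bilinear part -/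
noncomputable def Bf (x y : V m) : ℂ :=
  (((b x y - b (I • x) (I • y)) / 2 : ℝ) : ℂ) - I * (((b x (I • y) + b (I • x) y) / 2 : ℝ) : ℂ)

lemma Bf_add_right (x y z : V m) : Bf b x (y + z) = Bf b x y + Bf b x z := by
  simp only [Bf, smul_add, map_add]
  push_cast
  ring

lemma Bf_add_left (x y z : V m) : Bf b (x + y) z = Bf b x z + Bf b y z := by
  simp only [Bf, smul_add, map_add, add_apply]
  push_cast
  ring

lemma Bf_smul_right (c : ℂ) (x y : V m) : Bf b x (c • y) = c * Bf b x y := by
  simp only [Bf]
  rw [b_right b c x y, b_rightI b c (I • x) y, b_rightI b c x y, b_right b c (I • x) y]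
  conv_rhs => rw [← Complex.re_add_im c]
  push_cast
  ring_nf
  simp only [I_sq]
  ring

lemma Bf_smul_left (c : ℂ) (x y : V m) : Bf b (c • x) y = c * Bf b x y := by
  simp only [Bf]
  rw [b_left b c x y, b_leftI b c x (I • y), b_left b c x (I • y), b_leftI b c x y]
  conv_rhs => rw [← Complex.re_add_im c]
  push_cast
  ring_nf
  simp only [I_sq]
  ring

/-- continuous version -/
noncomputable def BL : V m →L[ℂ] V m →L[ℂ] ℂ :=
  LinearMap.toContinuousLinearMap
    { toFun := fun x => LinearMap.toContinuousLinearMap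
        { toFun := Bf b x
          map_add' := Bf_add_right b x
          map_smul' := fun c y => Bf_smul_right b c x y }
      map_add' := by
        intro x y
        ext1 z
        exact Bf_add_left b x y z
      map_smul' := by
        intro c x
        ext1 z
        exact Bf_smul_left b c x z }

lemma BL_apply (x y : V m) : BL b x y = Bf b x y := rfl

/-- the linear part -/
noncomputable def lL (e : V m) : V m →L[ℂ] ℂ :=
  LinearMap.toContinuousLinearMap
    { toFun := fun y => ((-2 * b y (I • e) : ℝ) : ℂ) + I * ((2 * b (I • y) (I • e) : ℝ) : ℂ)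
      map_add' := by
        intro x y
        simp only [smul_add, map_add, add_apply]
        push_cast
        ring
      map_smul' := by
        intro c y
        rw [b_left b c y (I • e), b_leftI b c y (I • e)]
        simp only [RingHom.id_apply, smul_eq_mul]
        conv_rhs => rw [← Complex.re_add_im c]
        push_cast
        ring_nf
        simp only [I_sq]
        ring }

lemma lL_re (e y : V m) : (lL b e y).re = -2 * b y (I • e) := by
  change (((-2 * b y (I • e) : ℝ) : ℂ) + I * ((2 * b (I • y) (I • e) : ℝ) : ℂ)).re = _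
  simp only [add_re, mul_re, I_re, I_im, ofReal_re, ofReal_im]
  ring

end

/-- orthogonal projection onto the line of `e` -/
noncomputable def P (e : V m) : V m →L[ℂ] V m := (innerSL ℂ e).smulRight e

lemma P_apply (e x : V m) : P e x = (inner ℂ e x : ℂ) • e := rfl

/-- projection onto the orthogonal complement -/
noncomputable def Q (e : V m) : V m →L[ℂ] V m := ContinuousLinearMap.id ℂ (V m) - P e

lemma Q_apply (e x : V m) : Q e x = x - (inner ℂ e x : ℂ) • e := rfl

lemma inner_ee (e : V m) (he : ‖e‖ = 1) : (inner ℂ e e : ℂ) = 1 := by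
  rw [inner_self_eq_norm_sq_to_K, he]; simp

lemma inner_Q (e x : V m) (he : ‖e‖ = 1) : (inner ℂ e (Q e x) : ℂ) = 0 := by
  rw [Q_apply, inner_sub_right, inner_smul_right, inner_ee e he]; ring

lemma Q_self (e : V m) (he : ‖e‖ = 1) : Q e e = 0 := by
  rw [Q_apply, inner_ee e he, one_smul, sub_self]

lemma Q_perp (e x : V m) (h : (inner ℂ e x : ℂ) = 0) : Q e x = x := by
  rw [Q_apply, h, zero_smul, sub_zero]

lemma Q_symm (e x y : V m) : (inner ℂ (Q e x) y : ℂ) = inner ℂ x (Q e y) := by
  rw [Q_apply, Q_apply, inner_sub_left, inner_sub_right, inner_smul_left, inner_smul_right,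
    inner_conj_symm]
  ring

theorem main : S_geo1b := by
  intro m e R b he hR hb hpos
  -- the quadratic form
  have hmul : ∀ (y : V m) (v : ℝ), b (y - ((v : ℂ) * I) • e) (y - ((v : ℂ) * I) • e) =
      b y y - 2 * v * b y (I • e) + v ^ 2 * b (I • e) (I • e) := by
    intro y v
    have h1 : ((v : ℂ) * I) • e = v • (I • e) := by
      rw [sm ((v : ℂ) * I) e]
      simp
    rw [h1]
    simp only [map_sub, map_smul, sub_apply, smul_apply, smul_eq_mul]
    rw [hb (I • e) y]
    ring
  have hperpI : ∀ y : V m, (inner ℂ e y : ℂ) = 0 → (inner ℂ e (I • y) : ℂ) = 0 := by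
    intro y hy
    rw [inner_smul_right, hy, mul_zero]
  have hH : ∀ y : V m, (Hf b y y).re = (b y y + b (I • y) (I • y)) / 2 := by
    intro y
    simp only [Hf, sub_re, ofReal_re, mul_re, I_re, I_im, ofReal_im]
    ring
  have hpos0 : ∀ y : V m, (inner ℂ e y : ℂ) = 0 → ‖y‖ ^ 2 / (2 * R) ≤ (Hf b y y).re := by
    intro y hy
    have h1 := hpos y 0 hy
    have h2 := hpos (I • y) 0 (hperpI y hy)
    rw [norm_smul, norm_I, one_mul] at h2
    simp only [ofReal_zero, zero_mul, zero_smul, sub_zero, ne_eq, OfNat.ofNat_ne_zero,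
      not_false_eq_true, zero_pow, add_zero] at h1 h2
    rw [hH]
    linarith
  -- the operator
  set S : V m →L[ℂ] V m := (Q e).comp ((T0 b).comp (Q e)) with hS
  have hSi : ∀ x y : V m, (inner ℂ (S x) y : ℂ) = Hf b (Q e x) (Q e y) := by
    intro x y
    change (inner ℂ (Q e (T0 b (Q e x))) y : ℂ) = _
    rw [Q_symm, T0_inner]
  have hSsym : ∀ x y : V m, (inner ℂ (S x) y : ℂ) = inner ℂ x (S y) := by
    intro x y
    rw [← inner_conj_symm x (S y), hSi, hSi, Hf_symm b hb]
  have hSpos : 0 ≤ S := by
    rw [ContinuousLinearMap.nonneg_iff_isPositive]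
    refine ⟨fun x y => hSsym x y, fun x => ?_⟩
    change 0 ≤ (inner ℂ (S x) x : ℂ).re
    rw [hSi]
    refine le_trans ?_ (hpos0 (Q e x) (inner_Q e x he))
    positivity
  set A : V m →L[ℂ] V m := CFC.sqrt S with hA
  have hA0 : 0 ≤ A := CFC.sqrt_nonneg S
  have hAA : A * A = S := CFC.sqrt_mul_sqrt_self S hSpos
  have hAsym : ∀ x y : V m, (inner ℂ (A x) y : ℂ) = inner ℂ x (A y) := by
    rw [ContinuousLinearMap.nonneg_iff_isPositive] at hA0
    exact fun x y => hA0.isSymmetric x y
  have hAn : ∀ x : V m, ((‖A x‖ ^ 2 : ℝ) : ℂ) = Hf b (Q e x) (Q e x) := by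
    intro x
    rw [← hSi, ← hAA]
    change _ = (inner ℂ (A (A x)) x : ℂ)
    rw [hAsym, inner_self_eq_norm_sq_to_K]
    simp
  have hAn' : ∀ x : V m, ‖A x‖ ^ 2 = (Hf b (Q e x) (Q e x)).re := by
    intro x
    rw [← hAn x, ofReal_re]
  have hAe : A e = 0 := by
    have h1 := hAn' e
    rw [Q_self e he] at h1
    have h2 : Hf b 0 (0 : V m) = 0 := by simp [Hf]
    rw [h2] at h1
    simpa using h1
  have hAperp : ∀ x : V m, (inner ℂ e (A x) : ℂ) = 0 := by
    intro x
    rw [← hAsym, hAe, inner_zero_left]
  have hAy : ∀ y : V m, (inner ℂ e y : ℂ) = 0 → ‖A y‖ ^ 2 = (Hf b y y).re := by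
    intro y hy
    rw [hAn', Q_perp e y hy]
  -- inverse
  have hPe : ∀ x : V m, (inner ℂ e (P e x) : ℂ) = inner ℂ e x := by
    intro x
    rw [P_apply, inner_smul_right, inner_ee e he, mul_one]
  have hinj : Function.Injective ((A + P e : V m →L[ℂ] V m) : V m →ₗ[ℂ] V m) := by
    rw [injective_iff_map_eq_zero]
    intro x hx
    have hx' : A x + P e x = 0 := hx
    have h1 : (inner ℂ e x : ℂ) = 0 := by
      have := congrArg (fun z => (inner ℂ e z : ℂ)) hx'
      simpa [inner_add_right, hAperp, hPe] using this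
    have h2 : A x = 0 := by
      rw [P_apply, h1, zero_smul, add_zero] at hx'
      exact hx'
    have h3 := hpos0 x h1
    rw [← hAy x h1, h2, norm_zero] at h3
    have h4 : ‖x‖ ^ 2 ≤ 0 := by
      have h5 : ‖x‖ ^ 2 / (2 * R) ≤ 0 := by simpa using h3
      by_contra hn
      push Not at hn
      have : 0 < ‖x‖ ^ 2 / (2 * R) := by positivity
      linarith
    have h5 : ‖x‖ = 0 := by
      have := sq_nonneg ‖x‖
      exact pow_eq_zero_iff (two_ne_zero) |>.1 (le_antisymm h4 this)
    exact norm_eq_zero.1 h5
  set F := LinearEquiv.ofInjectiveEndo _ hinj with hF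
  set A' : V m →L[ℂ] V m := LinearMap.toContinuousLinearMap (F.symm : V m →ₗ[ℂ] V m) with hA'
  have hA'1 : ∀ y : V m, A (A' y) + P e (A' y) = y := by
    intro y
    have := F.apply_symm_apply y
    exact this
  have hA'p : ∀ y : V m, (inner ℂ e y : ℂ) = 0 → (inner ℂ e (A' y) : ℂ) = 0 := by
    intro y hy
    have := congrArg (fun z => (inner ℂ e z : ℂ)) (hA'1 y)
    simp only [inner_add_right, hAperp, hPe, zero_add] at this
    rw [this, hy]
  refine ⟨A, A', BL b, lL b e, b (I • e) (I • e), ?_, ?_⟩
  · intro y hy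
    refine ⟨hAperp y, hA'p y hy, ?_⟩
    have := hA'1 y
    rw [P_apply, hA'p y hy, zero_smul, add_zero] at this
    exact this
  · intro y v hy
    rw [hmul]
    unfold SS
    rw [hAy y hy, hH, BL_apply, lL_re]
    have : (Bf b y y).re = (b y y - b (I • y) (I • y)) / 2 := by
      simp only [Bf, sub_re, ofReal_re, mul_re, I_re, I_im, ofReal_im]
      ring
    rw [this]
    ring

end Pool.Agent.W591.Ud
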